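import Pool.Agent.W480.DD.Fin

set_option autoImplicit false

open MvPolynomial Pool.Agent.W480.DD

namespace Pool.Agent.Results.MP_eeb8df_ag.DropsNotDense

/-- Sanity check: the dynamical degree of a dominant rational map over an infinite field exists and
is unique. -/
theorem dynamicalDegree_well_defined {K : Type} [Field K] [Infinite K] {N : ℕ} (hN : 1 ≤ N)
    (f : RatMap K N) (hf : f.Dominant) : ∃! δ : ℝ, f.IsDynamicalDegree δ :=
  exists_unique_dynamicalDegree hN f hf

/-- Drops of the dynamical degree in algebraic families: let `f` be a dominant rational self-map of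
`ℙ^N` over `ℂ(T_1, …, T_k)`, `N ≥ 1`, with dynamical degree `δ`, and let `ε > 0`. Then the set of
the `t ∈ ℂ^k` at which the coefficients of `f` are defined and for which the specialised map `f_t`
is dominant of dynamical degree at most `δ - ε` is not Zariski dense in `ℂ^k`. -/
theorem result (N k : ℕ) (hN : 1 ≤ N) (f : RatMap (RatFun k) N) (hf : f.Dominant) (δ : ℝ)
    (hδ : f.IsDynamicalDegree δ) (ε : ℝ) (hε : 0 < ε) :
    ¬ ZariskiDense {t : Fin k → ℂ | ∃ g : RatMap ℂ N, IsSpecialisation f t g ∧ g.Dominant ∧
      ∃ δ', g.IsDynamicalDegree δ' ∧ δ' ≤ δ - ε} :=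
  main N k hN f hf δ hδ ε hε

end Pool.Agent.Results.MP_eeb8df_ag.DropsNotDense
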